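import Mathlib

/-!
# Laplace expansion along pairs of rows in characteristic 2
-/

set_option autoImplicit false

namespace Pool.Agent.Helper74.CYC

open Finset

variable {R : Type*} [CommRing R]

section Lap

variable {r : ℕ}

/-- exchange of `inl i` and `inr i` for `i ∈ s` -/
def flip (s : Finset (Fin r)) : Equiv.Perm (Fin r ⊕ Fin r) where
  toFun := Sum.elim (fun i => if i ∈ s then Sum.inr i else Sum.inl i)
    (fun i => if i ∈ s then Sum.inl i else Sum.inr i)
  invFun := Sum.elim (fun i => if i ∈ s then Sum.inr i else Sum.inl i)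
    (fun i => if i ∈ s then Sum.inl i else Sum.inr i)
  left_inv := by
    rintro (i | i) <;> by_cases h : i ∈ s <;> simp [h]
  right_inv := by
    rintro (i | i) <;> by_cases h : i ∈ s <;> simp [h]

lemma flip_inl (s : Finset (Fin r)) (i : Fin r) :
    flip s (Sum.inl i) = if i ∈ s then Sum.inr i else Sum.inl i := rfl

lemma flip_inr (s : Finset (Fin r)) (i : Fin r) :
    flip s (Sum.inr i) = if i ∈ s then Sum.inl i else Sum.inr i := rfl

lemma flip_flip (s : Finset (Fin r)) : flip s * flip s = 1 := by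
  ext i
  · rcases i with i | i <;> by_cases h : i ∈ s <;> simp [h, flip_inl, flip_inr]

/-- a linear order key -/
def key : Fin r ⊕ Fin r → ℕ := Sum.elim (fun j : Fin r => (j : ℕ)) (fun j : Fin r => r + (j : ℕ))

lemma key_inj : Function.Injective (key : Fin r ⊕ Fin r → ℕ) := by
  rintro (i | i) (j | j) h <;> simp only [key, Sum.elim_inl, Sum.elim_inr] at h
  · congr 1; ext; exact h
  · omega
  · omega
  · congr 1; ext; omega

/-- the pair at each row index is increasing -/
def Ord (ψ : Equiv.Perm (Fin r ⊕ Fin r)) : Prop :=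
  ∀ i, key (ψ (Sum.inl i)) < key (ψ (Sum.inr i))

instance (ψ : Equiv.Perm (Fin r ⊕ Fin r)) : Decidable (Ord ψ) := by
  unfold Ord; infer_instance

/-- Sum over all permutations as a sum over ordered ones. -/
lemma sum_perm_ord (A : Fin r → (Fin r ⊕ Fin r) → (Fin r ⊕ Fin r) → R) :
    ∑ ψ : Equiv.Perm (Fin r ⊕ Fin r), ∏ i, A i (ψ (Sum.inl i)) (ψ (Sum.inr i))
      = ∑ ψ ∈ univ.filter (fun ψ : Equiv.Perm (Fin r ⊕ Fin r) => Ord ψ),
        ∏ i, (A i (ψ (Sum.inr i)) (ψ (Sum.inl i)) + A i (ψ (Sum.inl i)) (ψ (Sum.inr i))) := by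
  classical
  simp only [Fintype.prod_add]
  rw [Finset.sum_comm, ← Finset.sum_product' (univ : Finset (Finset (Fin r)))
    (univ.filter (fun ψ : Equiv.Perm (Fin r ⊕ Fin r) => Ord ψ))
    (fun s ψ => (∏ i ∈ s, A i (ψ (Sum.inr i)) (ψ (Sum.inl i))) *
      ∏ i ∈ sᶜ, A i (ψ (Sum.inl i)) (ψ (Sum.inr i)))]
  symm
  refine Finset.sum_bij' (fun p _ => p.2 * flip p.1)
    (fun ψ _ => (univ.filter (fun i => key (ψ (Sum.inr i)) < key (ψ (Sum.inl i))),
      ψ * flip (univ.filter (fun i => key (ψ (Sum.inr i)) < key (ψ (Sum.inl i))))))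
    ?_ ?_ ?_ ?_ ?_
  · intro p _
    exact mem_univ _
  · intro ψ _
    rw [mem_product, mem_filter]
    refine ⟨mem_univ _, mem_univ _, ?_⟩
    intro i
    rw [Equiv.Perm.mul_apply, Equiv.Perm.mul_apply, flip_inl, flip_inr]
    by_cases h : key (ψ (Sum.inr i)) < key (ψ (Sum.inl i))
    · rw [if_pos (by simpa using h), if_pos (by simpa using h)]
      exact h
    · rw [if_neg (by simpa using h), if_neg (by simpa using h)]
      have h2 : key (ψ (Sum.inr i)) ≠ key (ψ (Sum.inl i)) := by
        intro h3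
        have := ψ.injective (key_inj h3)
        exact absurd this (by simp)
      omega
  · rintro ⟨s, ψ⟩ hp
    rw [mem_product, mem_filter] at hp
    have hs : univ.filter (fun i => key ((ψ * flip s) (Sum.inr i))
        < key ((ψ * flip s) (Sum.inl i))) = s := by
      ext i
      rw [mem_filter, Equiv.Perm.mul_apply, Equiv.Perm.mul_apply, flip_inl, flip_inr]
      have h1 := hp.2.2 i
      by_cases h : i ∈ s
      · rw [if_pos h, if_pos h]
        simp [h, h1]
      · rw [if_neg h, if_neg h]
        simp only [mem_univ, true_and, h, iff_false]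
        exact not_lt.2 h1.le
    simp only [hs]
    rw [mul_assoc, flip_flip, mul_one]
  · intro ψ _
    simp only
    rw [mul_assoc, flip_flip, mul_one]
  · rintro ⟨s, ψ⟩ hp
    simp only
    rw [← Finset.prod_mul_prod_compl s (fun i => A i ((ψ * flip s) (Sum.inl i))
      ((ψ * flip s) (Sum.inr i)))]
    congr 1
    · refine Finset.prod_congr rfl (fun i hi => ?_)
      rw [Equiv.Perm.mul_apply, Equiv.Perm.mul_apply, flip_inl, flip_inr, if_pos hi, if_pos hi]
    · refine Finset.prod_congr rfl (fun i hi => ?_)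
      rw [mem_compl] at hi
      rw [Equiv.Perm.mul_apply, Equiv.Perm.mul_apply, flip_inl, flip_inr, if_neg hi, if_neg hi]

end Lap

/-- A symmetric double sum in characteristic 2 reduces to the diagonal. -/
lemma sum_symm_two [CharP R 2] {ι : Type*} [Fintype ι] [DecidableEq ι] (F : ι → ι → R)
    (hF : ∀ i j, F i j = F j i) : ∑ i, ∑ j, F i j = ∑ i, F i i := by
  rw [← Finset.sum_product' univ univ F, ← Finset.sum_filter_add_sum_filter_not (univ ×ˢ univ)
    (fun p : ι × ι => p.1 = p.2)]
  have h1 : ∑ p ∈ (univ ×ˢ univ).filter (fun p : ι × ι => ¬ p.1 = p.2), F p.1 p.2 = 0 := by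
    refine Finset.sum_involution (fun p _ => p.swap) ?_ ?_ ?_ ?_
    · intro p _
      simp only [Prod.fst_swap, Prod.snd_swap]
      rw [hF p.2 p.1]
      exact CharTwo.add_self_eq_zero _
    · intro p hp _ h
      rw [mem_filter] at hp
      exact hp.2 (congrArg Prod.fst h).symm
    · intro p hp
      rw [mem_filter] at hp ⊢
      refine ⟨by simp, fun h => hp.2 ?_⟩
      simpa using h.symm
    · intro p _
      simp
  rw [h1, add_zero]
  symm
  refine Finset.sum_bij' (fun i _ => (i, i)) (fun p _ => p.1) ?_ ?_ ?_ ?_ ?_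
  · intro i _; simp
  · intro p _; exact mem_univ _
  · intro i _; rfl
  · intro p hp
    rw [mem_filter] at hp
    ext
    · rfl
    · exact hp.2
  · intro i _; rfl

/-- The determinant in characteristic 2. -/
lemma det_two [CharP R 2] {n : Type*} [Fintype n] [DecidableEq n] (A : Matrix n n R) :
    A.det = ∑ ψ : Equiv.Perm n, ∏ i, A i (ψ i) := by
  rw [← Matrix.det_transpose, Matrix.det_apply']
  refine Finset.sum_congr rfl (fun ψ _ => ?_)
  have : (((Equiv.Perm.sign ψ : ℤˣ) : ℤ) : R) = 1 := by
    rcases Int.units_eq_one_or (Equiv.Perm.sign ψ) with h | h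
    · rw [h]; simp
    · rw [h]; simp [CharTwo.neg_eq]
  rw [this, one_mul]
  rfl

end Pool.Agent.Helper74.CYC
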