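import Pool.Agent.Helper10.CYC.OddDefs
import Pool.Agent.Helper91.CYC.PieceA
import Pool.Agent.Helper74.CYC.Lap

/-!
# The two-block functional and the transfer lemma

`lam F c K L` is the sum over all bijections of `dd F (odd part of c X ^ (l + pi l))`.
The transfer lemma expresses the symmetrised two-block determinants modulo `F(X ^ 2)` in
characteristic 2 through `lam`.
-/

set_option autoImplicit false

namespace Pool.Agent.Helper74.CYC

open Finset Polynomial Pool.Agent.Helper10.CYC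

section parts

variable {R : Type*} [CommRing R]

/-- The odd part: the coefficient of `X ^ n` is the coefficient of `X ^ (2 n + 1)`. -/
noncomputable def oddp (p : R[X]) : R[X] := contract 2 (divX p)

lemma coeff_oddp (p : R[X]) (n : ℕ) : (oddp p).coeff n = p.coeff (2 * n + 1) := by
  rw [oddp, coeff_contract (by norm_num), coeff_divX, mul_comm]

lemma oddp_map {S : Type*} [CommRing S] (φ : R →+* S) (p : R[X]) :
    (oddp p).map φ = oddp (p.map φ) := by
  ext n
  rw [coeff_map, coeff_oddp, coeff_oddp, coeff_map]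

/-- Evaluation in `R[x]/(x ^ 2 - ρ)`. -/
noncomputable def evq (ρ : R) : R[X] →ₐ[R] QuadraticAlgebra R ρ 0 := aeval ⟨0, 1⟩

lemma om_sq (ρ : R) : (⟨0, 1⟩ : QuadraticAlgebra R ρ 0) ^ 2 = algebraMap R _ ρ := by
  rw [pow_two]
  ext
  · simp [QuadraticAlgebra.algebraMap_eq]
  · simp [QuadraticAlgebra.algebraMap_eq]

lemma evq_X_sq (ρ : R) : evq ρ (X ^ 2) = algebraMap R _ ρ := by
  rw [evq, map_pow, aeval_X, om_sq]

lemma evq_re_im (ρ : R) (p : R[X]) (N : ℕ) (hN : p.natDegree < 2 * N) :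
    evq ρ p = ⟨∑ a ∈ range N, p.coeff (2 * a) * ρ ^ a,
      ∑ a ∈ range N, p.coeff (2 * a + 1) * ρ ^ a⟩ := by
  have h1 : p = ∑ i ∈ range (2 * N), C (p.coeff i) * X ^ i := p.as_sum_range_C_mul_X_pow' hN
  have h2 : ∀ (c : ℕ → R) (M : ℕ), evq ρ (∑ i ∈ range (2 * M), C (c i) * X ^ i)
      = ⟨∑ a ∈ range M, c (2 * a) * ρ ^ a, ∑ a ∈ range M, c (2 * a + 1) * ρ ^ a⟩ := by
    intro c M
    induction M with
    | zero =>
      simp only [mul_zero, range_zero, sum_empty, map_zero]
      rfl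
    | succ M ih =>
      have e1 : ∑ i ∈ range (2 * (M + 1)), C (c i) * X ^ i = ∑ i ∈ range (2 * M), C (c i) * X ^ i
          + (C (c (2 * M)) + C (c (2 * M + 1)) * X) * (X ^ 2) ^ M := by
        rw [show 2 * (M + 1) = 2 * M + 1 + 1 by ring, sum_range_succ, sum_range_succ]
        ring
      rw [e1, map_add, ih, map_mul, map_pow, evq_X_sq, map_add, map_mul, evq, aeval_C, aeval_C,
        aeval_X, ← map_pow, sum_range_succ, sum_range_succ]
      ext
      · simp [QuadraticAlgebra.algebraMap_eq]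
      · simp [QuadraticAlgebra.algebraMap_eq]
  conv_lhs => rw [h1]
  exact h2 _ N

lemma evq_im (ρ : R) (p : R[X]) : (evq ρ p).im = (oddp p).eval ρ := by
  have h1 : p.natDegree < 2 * (p.natDegree + 1) := by omega
  have h2 : (oddp p).natDegree < p.natDegree + 1 := by
    rw [Nat.lt_succ_iff]
    refine (natDegree_le_iff_coeff_eq_zero).2 (fun n hn => ?_)
    rw [coeff_oddp]
    exact coeff_eq_zero_of_natDegree_lt (by omega)
  rw [evq_re_im ρ p _ h1, eval_eq_sum_range' h2]
  change ∑ a ∈ range (p.natDegree + 1), p.coeff (2 * a + 1) * ρ ^ a = _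
  refine Finset.sum_congr rfl (fun a _ => ?_)
  rw [coeff_oddp]

end parts

/-! ### The determinant in terms of the roots -/

section det

variable {R : Type*} [CommRing R]

lemma sign_cast_two [CharP R 2] {n : Type*} [Fintype n] [DecidableEq n] (σ : Equiv.Perm n) :
    (((Equiv.Perm.sign σ : ℤˣ) : ℤ) : R) = 1 := by
  rcases Int.units_eq_one_or (Equiv.Perm.sign σ) with h | h
  · rw [h]; simp
  · rw [h]; simp [CharTwo.neg_eq]

/-- In characteristic 2 rows and columns can be reindexed independently. -/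
lemma det_submatrix_two [CharP R 2] {m n : Type*} [Fintype m] [DecidableEq m] [Fintype n]
    [DecidableEq n] (e e' : m ≃ n) (A : Matrix n n R) : (A.submatrix e e').det = A.det := by
  have h1 : A.submatrix e e' = (A.submatrix e e).submatrix id (e'.trans e.symm) := by
    ext i j; simp
  rw [h1, Matrix.det_permute', Matrix.det_submatrix_equiv_self, sign_cast_two, one_mul]

/-- `Fin r ⊕ Fin r ≃ Fin (r + r)`, even and odd positions. -/
def parEquiv (r : ℕ) : Fin r ⊕ Fin r ≃ Fin (r + r) where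
  toFun := Sum.elim (fun i => ⟨2 * (i : ℕ), by omega⟩) (fun i => ⟨2 * (i : ℕ) + 1, by omega⟩)
  invFun j := if (j : ℕ) % 2 = 0 then Sum.inl ⟨(j : ℕ) / 2, by omega⟩
    else Sum.inr ⟨(j : ℕ) / 2, by omega⟩
  left_inv := by
    rintro (i | i)
    · simp
    · have h : ¬ (2 * (i : ℕ) + 1) % 2 = 0 := by omega
      simp only [Sum.elim_inr, h, if_false]
      congr 1
      ext
      simp only
      omega
  right_inv := by
    intro j
    ext
    by_cases h : (j : ℕ) % 2 = 0
    · simp only [if_pos h, Sum.elim_inl]; omega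
    · simp only [if_neg h, Sum.elim_inr]; omega

/-- `∏ (X ^ 2 - ρ i)`. -/
noncomputable def fsq {r : ℕ} (ρ : Fin r → R) : R[X] := ∏ i, (X ^ 2 - C (ρ i))

lemma fsq_monic {r : ℕ} (ρ : Fin r → R) : (fsq ρ).Monic :=
  monic_prod_of_monic _ _ fun i _ => monic_X_pow_sub_C _ (by norm_num)

lemma fsq_natDegree [Nontrivial R] {r : ℕ} (ρ : Fin r → R) : (fsq ρ).natDegree = r + r := by
  rw [fsq, natDegree_prod_of_monic _ _ fun i _ => monic_X_pow_sub_C _ (by norm_num)]
  simp only [natDegree_X_pow_sub_C, sum_const, card_univ, Fintype.card_fin, smul_eq_mul]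
  ring

lemma evq_mod {r : ℕ} (ρ : Fin r → R) (i : Fin r) (p : R[X]) :
    evq (ρ i) (p %ₘ fsq ρ) = evq (ρ i) p := by
  have h := Polynomial.modByMonic_add_div p (fsq ρ)
  have h0 : evq (ρ i) (fsq ρ) = 0 := by
    rw [fsq, map_prod]
    refine Finset.prod_eq_zero (mem_univ i) ?_
    rw [map_sub, evq_X_sq, evq, aeval_C, sub_self]
  have h2 := congrArg (fun q => evq (ρ i) q) h
  simp only [map_add, map_mul, h0, zero_mul, add_zero] at h2
  exact h2

/-- The matrix of values at the roots: rows are the two coordinates at each root. -/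
noncomputable def vmat {r : ℕ} (ρ : Fin r → R) (g : Fin r ⊕ Fin r → R[X]) :
    Matrix (Fin r ⊕ Fin r) (Fin r ⊕ Fin r) R :=
  Matrix.of fun i c => Sum.elim (fun i => (evq (ρ i) (g c)).re) (fun i => (evq (ρ i) (g c)).im) i

lemma det_vmat [CharP R 2] {r : ℕ} (ρ : Fin r → R) (g : Fin r ⊕ Fin r → R[X]) :
    (vmat ρ g).det = (Matrix.vandermonde ρ).det ^ 2 *
      dd (fsq ρ) (fun j : Fin (r + r) => g (finSumFinEquiv.symm j)) := by
  rcases subsingleton_or_nontrivial R with hR | hR
  · exact Subsingleton.elim _ _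
  have h1 : vmat ρ g = Matrix.fromBlocks (Matrix.vandermonde ρ) 0 0 (Matrix.vandermonde ρ) *
      (Matrix.of fun a j : Fin (r + r) => (g (finSumFinEquiv.symm j) %ₘ fsq ρ).coeff
        (a : ℕ)).submatrix (parEquiv r) finSumFinEquiv := by
    have hlt : ∀ (c : Fin r ⊕ Fin r), 0 < r → (g c %ₘ fsq ρ).natDegree < 2 * r := by
      intro c hr
      have hne : fsq ρ ≠ 1 := by
        intro h
        have := fsq_natDegree ρ
        rw [h, natDegree_one] at this
        omega
      have := natDegree_modByMonic_lt (g c) (fsq_monic ρ) hne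
      rw [fsq_natDegree] at this
      omega
    ext i c
    rw [Matrix.mul_apply, Fintype.sum_sum_type]
    rcases i with i | i
    · simp only [vmat, Matrix.of_apply, Sum.elim_inl, Matrix.fromBlocks_apply₁₁,
        Matrix.fromBlocks_apply₁₂, Matrix.zero_apply, zero_mul, Finset.sum_const_zero, add_zero,
        Matrix.submatrix_apply, Equiv.symm_apply_apply, Matrix.vandermonde_apply]
      rw [← evq_mod, evq_re_im _ _ r (hlt c (Fin.pos i))]
      change ∑ a ∈ range r, (g c %ₘ fsq ρ).coeff (2 * a) * ρ i ^ a = _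
      rw [← Fin.sum_univ_eq_sum_range (fun a => (g c %ₘ fsq ρ).coeff (2 * a) * ρ i ^ a)]
      refine Finset.sum_congr rfl (fun a _ => ?_)
      rw [mul_comm]
      rfl
    · simp only [vmat, Matrix.of_apply, Sum.elim_inr, Matrix.fromBlocks_apply₂₂,
        Matrix.fromBlocks_apply₂₁, Matrix.zero_apply, zero_mul, Finset.sum_const_zero, zero_add,
        Matrix.submatrix_apply, Equiv.symm_apply_apply, Matrix.vandermonde_apply]
      rw [← evq_mod, evq_re_im _ _ r (hlt c (Fin.pos i))]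
      change ∑ a ∈ range r, (g c %ₘ fsq ρ).coeff (2 * a + 1) * ρ i ^ a = _
      rw [← Fin.sum_univ_eq_sum_range (fun a => (g c %ₘ fsq ρ).coeff (2 * a + 1) * ρ i ^ a)]
      refine Finset.sum_congr rfl (fun a _ => ?_)
      rw [mul_comm]
      rfl
  rw [h1, Matrix.det_mul, Matrix.det_fromBlocks_zero₂₁, det_submatrix_two, ← pow_two]
  rfl

end det

/-! ### The symmetrised two-block determinant -/

section transfer

variable {R : Type*} [CommRing R] {r : ℕ}

/-- Columns of the two-block determinant. -/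
noncomputable def cols2 (a b : R[X]) (K L : Fin r → ℕ) (σ τ : Equiv.Perm (Fin r)) :
    Fin r ⊕ Fin r → R[X] :=
  Sum.elim (fun j : Fin r => a * X ^ ((j : ℕ) + K (σ j)))
    (fun j : Fin r => b * X ^ ((j : ℕ) + L (τ j)))

/-- The two-block functional. -/
noncomputable def lam (F c : R[X]) (K L : Fin r → ℕ) : R :=
  ∑ π : Equiv.Perm (Fin r), dd F (fun j => oddp (c * X ^ (K j + L (π j))))

lemma evq_im_mul (ρ : R) (p q : R[X]) : (evq ρ (p * q)).im
    = (evq ρ q).re * (evq ρ p).im + (evq ρ p).re * (evq ρ q).im := by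
  rw [map_mul, QuadraticAlgebra.im_mul]
  ring

lemma det_vmat_ord [CharP R 2] (ρ : Fin r → R) (g : Fin r ⊕ Fin r → R[X]) :
    (vmat ρ g).det = ∑ ψ ∈ univ.filter (fun ψ : Equiv.Perm (Fin r ⊕ Fin r) => Ord ψ),
      ∏ i, (evq (ρ i) (g (ψ (Sum.inl i)) * g (ψ (Sum.inr i)))).im := by
  have h := sum_perm_ord (fun (i : Fin r) c c' => (evq (ρ i) (g c)).re * (evq (ρ i) (g c')).im)
  simp only [evq_im_mul]
  rw [← h, det_two]
  refine Finset.sum_congr rfl (fun ψ _ => ?_)
  rw [Fintype.prod_sum_type, ← Finset.prod_mul_distrib]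
  rfl

lemma cols2_swap (a b : R[X]) (K L : Fin r → ℕ) (σ τ : Equiv.Perm (Fin r)) (j j' : Fin r)
    (c : Fin r ⊕ Fin r) (h1 : c ≠ Sum.inl j) (h2 : c ≠ Sum.inl j') :
    cols2 a b K L (σ * Equiv.swap j j') τ c = cols2 a b K L σ τ c := by
  rcases c with c | c
  · have h1' : c ≠ j := fun h => h1 (by rw [h])
    have h2' : c ≠ j' := fun h => h2 (by rw [h])
    simp only [cols2, Sum.elim_inl, Equiv.Perm.mul_apply, Equiv.swap_apply_of_ne_of_ne h1' h2']
  · rfl

lemma bad_zero [CharP R 2] (ρ : Fin r → R) (a b : R[X]) (K L : Fin r → ℕ)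
    (τ : Equiv.Perm (Fin r)) (ψ : Equiv.Perm (Fin r ⊕ Fin r)) (hψ : Ord ψ)
    (hb : ψ ∉ (Equiv.Perm.sumCongrHom (Fin r) (Fin r)).range) :
    ∑ σ : Equiv.Perm (Fin r), ∏ i, (evq (ρ i) (cols2 a b K L σ τ (ψ (Sum.inl i)) *
      cols2 a b K L σ τ (ψ (Sum.inr i)))).im = 0 := by
  have h1 : ¬ Set.MapsTo ψ (Set.range Sum.inl) (Set.range Sum.inl) :=
    mt Equiv.Perm.mem_sumCongrHom_range_of_perm_mapsTo_inl hb
  rw [Equiv.Perm.perm_mapsTo_inl_iff_mapsTo_inr] at h1
  have h2 : ∃ i₀ j', ψ (Sum.inr i₀) = Sum.inl j' := by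
    by_contra hcon
    push Not at hcon
    apply h1
    rintro _ ⟨i, rfl⟩
    rcases hc : ψ (Sum.inr i) with c | c
    · exact absurd hc (hcon i c)
    · exact ⟨c, rfl⟩
  obtain ⟨i₀, j', hj'⟩ := h2
  have h3 := hψ i₀
  rw [hj'] at h3
  obtain ⟨j, hj⟩ : ∃ j, ψ (Sum.inl i₀) = Sum.inl j := by
    rcases hc : ψ (Sum.inl i₀) with c | c
    · exact ⟨c, rfl⟩
    · rw [hc] at h3
      simp only [key, Sum.elim_inl, Sum.elim_inr] at h3
      omega
  have hjj : j ≠ j' := by
    rintro rfl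
    rw [hj] at h3
    exact lt_irrefl _ h3
  refine Finset.sum_involution (fun σ _ => σ * Equiv.swap j j') ?_ ?_ ?_ ?_
  · intro σ _
    have key1 : ∏ i, (evq (ρ i) (cols2 a b K L (σ * Equiv.swap j j') τ (ψ (Sum.inl i)) *
        cols2 a b K L (σ * Equiv.swap j j') τ (ψ (Sum.inr i)))).im
        = ∏ i, (evq (ρ i) (cols2 a b K L σ τ (ψ (Sum.inl i)) *
          cols2 a b K L σ τ (ψ (Sum.inr i)))).im := by
      refine Finset.prod_congr rfl (fun i _ => ?_)
      by_cases hi : i = i₀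
      · subst hi
        rw [hj, hj']
        congr 2
        simp only [cols2, Sum.elim_inl, Equiv.Perm.mul_apply, Equiv.swap_apply_left,
          Equiv.swap_apply_right]
        ring
      · have e1 : ψ (Sum.inl i) ≠ Sum.inl j := by
          rw [← hj]; intro h; exact hi (Sum.inl_injective (ψ.injective h))
        have e2 : ψ (Sum.inl i) ≠ Sum.inl j' := by
          rw [← hj']; intro h; exact absurd (ψ.injective h) (by simp)
        have e3 : ψ (Sum.inr i) ≠ Sum.inl j := by
          rw [← hj]; intro h; exact absurd (ψ.injective h) (by simp)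
        have e4 : ψ (Sum.inr i) ≠ Sum.inl j' := by
          rw [← hj']; intro h; exact hi (Sum.inr_injective (ψ.injective h))
        rw [cols2_swap _ _ _ _ _ _ _ _ _ e1 e2, cols2_swap _ _ _ _ _ _ _ _ _ e3 e4]
    rw [key1]
    exact CharTwo.add_self_eq_zero _
  · intro σ _ _ h
    have h4 : Equiv.swap j j' = 1 := mul_eq_left.1 h
    exact hjj (Equiv.swap_eq_one_iff.1 h4)
  · intro σ _; exact mem_univ _
  · intro σ _
    rw [mul_assoc, Equiv.swap_mul_self, mul_one]

lemma ord_sumCongr (α β : Equiv.Perm (Fin r)) : Ord (Equiv.sumCongr α β) := by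
  intro i
  change key (Sum.inl (α i)) < key (Sum.inr (β i))
  simp only [key, Sum.elim_inl, Sum.elim_inr]
  omega

lemma sum_det_vmat [CharP R 2] (ρ : Fin r → R) (a b : R[X]) (K L : Fin r → ℕ) :
    ∑ σ : Equiv.Perm (Fin r), ∑ τ : Equiv.Perm (Fin r), (vmat ρ (cols2 a b K L σ τ)).det
      = (Matrix.vandermonde ρ).det * ∑ σ : Equiv.Perm (Fin r), ∑ τ : Equiv.Perm (Fin r),
        ∏ i, (evq (ρ i) (a * b * X ^ (K (σ i) + L (τ i)))).im := by
  classical
  set T : Equiv.Perm (Fin r ⊕ Fin r) → R := fun ψ =>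
    ∑ τ : Equiv.Perm (Fin r), ∑ σ : Equiv.Perm (Fin r),
      ∏ i, (evq (ρ i) (cols2 a b K L σ τ (ψ (Sum.inl i)) *
      cols2 a b K L σ τ (ψ (Sum.inr i)))).im with hT
  have h1 : ∑ σ : Equiv.Perm (Fin r), ∑ τ : Equiv.Perm (Fin r), (vmat ρ (cols2 a b K L σ τ)).det
      = ∑ ψ ∈ univ.filter (fun ψ : Equiv.Perm (Fin r ⊕ Fin r) => Ord ψ), T ψ := by
    simp only [det_vmat_ord, hT]
    symm
    rw [Finset.sum_comm]
    rw [Finset.sum_congr rfl (fun τ _ => Finset.sum_comm)]
    rw [Finset.sum_comm]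
  rw [h1, ← Finset.sum_filter_add_sum_filter_not _
    (fun ψ => ψ ∈ (Equiv.Perm.sumCongrHom (Fin r) (Fin r)).range)]
  have h2 : ∑ ψ ∈ (univ.filter (fun ψ : Equiv.Perm (Fin r ⊕ Fin r) => Ord ψ)).filter
      (fun ψ => ψ ∉ (Equiv.Perm.sumCongrHom (Fin r) (Fin r)).range), T ψ = 0 := by
    refine Finset.sum_eq_zero (fun ψ hψ => ?_)
    rw [mem_filter, mem_filter] at hψ
    exact Finset.sum_eq_zero (fun τ _ => bad_zero ρ a b K L τ ψ hψ.1.2 hψ.2)
  have h3 : ∑ ψ ∈ (univ.filter (fun ψ : Equiv.Perm (Fin r ⊕ Fin r) => Ord ψ)).filter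
      (fun ψ => ψ ∈ (Equiv.Perm.sumCongrHom (Fin r) (Fin r)).range), T ψ
      = ∑ α : Equiv.Perm (Fin r), ∑ β : Equiv.Perm (Fin r), T (Equiv.sumCongr α β) := by
    rw [← Finset.sum_product' univ univ
      (fun α β : Equiv.Perm (Fin r) => T (Equiv.sumCongr α β))]
    symm
    refine Finset.sum_nbij (fun p => Equiv.sumCongr p.1 p.2) ?_ ?_ ?_ ?_
    · intro p _
      rw [mem_filter, mem_filter]
      exact ⟨⟨mem_univ _, ord_sumCongr _ _⟩, ⟨p, rfl⟩⟩
    · intro p _ q _ h
      exact Equiv.Perm.sumCongrHom_injective h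
    · intro ψ hψ
      rw [mem_coe, mem_filter] at hψ
      obtain ⟨p, hp⟩ := hψ.2
      exact ⟨p, by simp, hp⟩
    · intro p _; rfl
  rw [h2, add_zero, h3]
  have h4 : ∀ α β : Equiv.Perm (Fin r), T (Equiv.sumCongr α β)
      = ∑ τ : Equiv.Perm (Fin r), ∑ σ : Equiv.Perm (Fin r),
        ∏ i, (evq (ρ i) (a * b * X ^ (((α i : ℕ) + (β i : ℕ)) + (K (σ i) + L (τ i))))).im := by
    intro α β
    simp only [hT]
    symm
    rw [← Equiv.sum_comp (Equiv.mulRight β)]
    refine Finset.sum_congr rfl (fun τ _ => ?_)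
    rw [← Equiv.sum_comp (Equiv.mulRight α)]
    refine Finset.sum_congr rfl (fun σ _ => ?_)
    refine Finset.prod_congr rfl (fun i _ => ?_)
    congr 2
    change a * b * X ^ ((α i : ℕ) + (β i : ℕ) + (K (σ (α i)) + L (τ (β i))))
      = (a * X ^ ((α i : ℕ) + K (σ (α i)))) * (b * X ^ ((β i : ℕ) + L (τ (β i))))
    ring
  rw [Finset.sum_congr rfl (fun α _ => Finset.sum_congr rfl (fun β _ => h4 α β)),
    sum_symm_two _ (fun α β => by simp only [add_comm (α _ : ℕ)])]
  rw [det_two, Finset.sum_mul]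
  refine Finset.sum_congr rfl (fun α _ => ?_)
  rw [Finset.sum_comm, Finset.mul_sum]
  refine Finset.sum_congr rfl (fun σ _ => ?_)
  rw [Finset.mul_sum]
  refine Finset.sum_congr rfl (fun τ _ => ?_)
  rw [← Finset.prod_mul_distrib]
  refine Finset.prod_congr rfl (fun i _ => ?_)
  rw [← two_mul, pow_add, pow_mul, mul_left_comm, map_mul, map_pow, evq_X_sq, ← map_pow,
    QuadraticAlgebra.algebraMap_eq]
  simp

end transfer

/-! ### The transfer lemma -/

lemma lam_mul {R : Type} [CommRing R] [CharP R 2] {r : ℕ} (ρ : Fin r → R) (c : R[X])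
    (K L : Fin r → ℕ) :
    (Matrix.vandermonde ρ).det * lam (∏ i, (X - C (ρ i))) c K L
      = ∑ σ : Equiv.Perm (Fin r), ∑ τ : Equiv.Perm (Fin r),
        ∏ i, (evq (ρ i) (c * X ^ (K (σ i) + L (τ i)))).im := by
  rw [lam, Finset.mul_sum]
  have h1 : ∀ π : Equiv.Perm (Fin r), (Matrix.vandermonde ρ).det *
      dd (∏ i, (X - C (ρ i))) (fun j => oddp (c * X ^ (K j + L (π j))))
      = ∑ θ : Equiv.Perm (Fin r), ∏ i, (evq (ρ i) (c * X ^ (K (θ i) + L (π (θ i))))).im := by
    intro π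
    rw [← Helper91.CYC.st_a2, det_two]
    refine Finset.sum_congr rfl (fun θ _ => ?_)
    refine Finset.prod_congr rfl (fun i _ => ?_)
    rw [Matrix.of_apply, evq_im]
  rw [Finset.sum_congr rfl (fun π _ => h1 π), Finset.sum_comm]
  refine Finset.sum_congr rfl (fun θ _ => ?_)
  symm
  rw [← Equiv.sum_comp (Equiv.mulRight θ)]
  rfl

/-- The transfer lemma when the roots are generic. -/
lemma transfer_dom {R : Type} [CommRing R] [IsDomain R] [CharP R 2] {r : ℕ} (ρ : Fin r → R)
    (hρ : Function.Injective ρ) (a b : R[X]) (K L : Fin r → ℕ) :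
    ∑ σ : Equiv.Perm (Fin r), ∑ τ : Equiv.Perm (Fin r),
      dd (fsq ρ) (fun j : Fin (r + r) => cols2 a b K L σ τ (finSumFinEquiv.symm j))
      = lam (∏ i, (X - C (ρ i))) (a * b) K L := by
  have hV : (Matrix.vandermonde ρ).det ≠ 0 := Matrix.det_vandermonde_ne_zero_iff.2 hρ
  have h1 := sum_det_vmat ρ a b K L
  rw [← lam_mul] at h1
  simp only [det_vmat, ← Finset.mul_sum] at h1
  rw [pow_two, mul_assoc] at h1
  exact mul_left_cancel₀ hV (mul_left_cancel₀ hV h1)

lemma lam_map {R S : Type} [CommRing R] [CommRing S] (φ : R →+* S) {r : ℕ} (F c : R[X])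
    (hF : F.Monic) (K L : Fin r → ℕ) :
    φ (lam F c K L) = lam (F.map φ) (c.map φ) K L := by
  rw [lam, map_sum]
  refine Finset.sum_congr rfl (fun π _ => ?_)
  rw [Helper91.CYC.st_a1 R S φ r F hF]
  congr 1
  funext j
  rw [oddp_map, Polynomial.map_mul, Polynomial.map_pow, Polynomial.map_X]

/-- **Transfer lemma.** In characteristic 2, modulo `∏ (X ^ 2 - ρ i)`, the two-block determinants
summed over both label bijections are the two-block functional of the product. -/
theorem transfer {R : Type} [CommRing R] [CharP R 2] {r : ℕ} (ρ : Fin r → R) (a b : R[X])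
    (K L : Fin r → ℕ) :
    ∑ σ : Equiv.Perm (Fin r), ∑ τ : Equiv.Perm (Fin r),
      dd (fsq ρ) (fun j : Fin (r + r) => cols2 a b K L σ τ (finSumFinEquiv.symm j))
      = lam (∏ i, (X - C (ρ i))) (a * b) K L := by
  classical
  let _ : Algebra (ZMod 2) R := ZMod.algebra R 2
  set N := max a.natDegree b.natDegree + 1 with hN
  let U := MvPolynomial (Fin r ⊕ (ℕ ⊕ ℕ)) (ZMod 2)
  let φ : U →+* R := (MvPolynomial.aeval (R := ZMod 2)
    (Sum.elim ρ (Sum.elim (fun n => a.coeff n) (fun n => b.coeff n)))).toRingHom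
  have hφ : ∀ s, φ (MvPolynomial.X s)
      = Sum.elim ρ (Sum.elim (fun n => a.coeff n) (fun n => b.coeff n)) s := fun s =>
    MvPolynomial.aeval_X _ s
  let ρ' : Fin r → U := fun i => MvPolynomial.X (Sum.inl i)
  have hρ' : Function.Injective ρ' := fun i j h =>
    Sum.inl_injective (MvPolynomial.X_injective h)
  let a' : U[X] := ∑ n ∈ range N, C (MvPolynomial.X (Sum.inr (Sum.inl n))) * X ^ n
  let b' : U[X] := ∑ n ∈ range N, C (MvPolynomial.X (Sum.inr (Sum.inr n))) * X ^ n
  have ha' : a'.map φ = a := by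
    simp only [a', Polynomial.map_sum, Polynomial.map_mul, Polynomial.map_C, Polynomial.map_pow,
      Polynomial.map_X, hφ, Sum.elim_inr, Sum.elim_inl]
    exact (a.as_sum_range_C_mul_X_pow' (by omega)).symm
  have hb' : b'.map φ = b := by
    simp only [b', Polynomial.map_sum, Polynomial.map_mul, Polynomial.map_C, Polynomial.map_pow,
      Polynomial.map_X, hφ, Sum.elim_inr]
    exact (b.as_sum_range_C_mul_X_pow' (by omega)).symm
  have h := congrArg φ (transfer_dom ρ' hρ' a' b' K L)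
  rw [map_sum, lam_map φ _ _ (monic_prod_of_monic _ _ fun i _ => monic_X_sub_C _),
    Polynomial.map_mul, ha', hb'] at h
  have e1 : (∏ i, (X - C (ρ' i))).map φ = ∏ i, (X - C (ρ i)) := by
    rw [Polynomial.map_prod]
    refine Finset.prod_congr rfl (fun i _ => ?_)
    rw [Polynomial.map_sub, Polynomial.map_X, Polynomial.map_C, hφ]
    rfl
  rw [e1] at h
  rw [← h]
  refine Finset.sum_congr rfl (fun σ _ => ?_)
  rw [map_sum]
  refine Finset.sum_congr rfl (fun τ _ => ?_)
  rw [Helper91.CYC.st_a1 U R φ _ _ (fsq_monic ρ')]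
  have e2 : (fsq ρ').map φ = fsq ρ := by
    rw [fsq, fsq, Polynomial.map_prod]
    refine Finset.prod_congr rfl (fun i _ => ?_)
    rw [Polynomial.map_sub, Polynomial.map_pow, Polynomial.map_X, Polynomial.map_C, hφ]
    rfl
  rw [e2]
  congr 1
  funext j
  rcases finSumFinEquiv.symm j with c | c
  · simp only [cols2, Sum.elim_inl, Polynomial.map_mul, ha', Polynomial.map_pow,
      Polynomial.map_X]
  · simp only [cols2, Sum.elim_inr, Polynomial.map_mul, hb', Polynomial.map_pow,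
      Polynomial.map_X]

end Pool.Agent.Helper74.CYC
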